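import Pool.Agent.Helper98.EX.Stmts

/-!
# Module STATEX: existence and uniqueness of the stationary law
-/

namespace Pool.Agent.Helper98.EX

open Finset Filter Topology

section statex

variable {N k : ℕ} {r l : ℕ → ℝ}

/-- total height -/
def statex_pot {N : ℕ} (η : Cfg N) : ℕ := ∑ x ∈ Finset.range N, ht η x

theorem statex_eq_top (hk : k ≤ N) {η : Cfg N} (hη : ht η 0 = k)
    (h : statex_pot (top N k) ≤ statex_pot η) : η = top N k := by
  have h1 := hle_top hk hη
  have h3 : ∀ x ∈ Finset.range N, ht η x ≤ ht (top N k) x := fun x _ => by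
    simpa using h1 x
  have h2 : ∀ x ∈ Finset.range N, ht η x = ht (top N k) x :=
    (Finset.sum_eq_sum_iff_of_le h3).1 (le_antisymm (Finset.sum_le_sum h3) h)
  apply ext_ht
  intro x
  rcases lt_or_ge x N with hx | hx
  · exact h2 x (Finset.mem_range.2 hx)
  · rw [ht_ge hx, ht_ge hx]

theorem statex_move (hk : k ≤ N) {η : Cfg N} (hη : ht η 0 = k) (hne : η ≠ top N k) :
    ∃ x, 1 ≤ x ∧ x < N ∧ occ η (x - 1) = true ∧ occ η x = false := by
  by_contra hcon
  have hcon' : ∀ x, 1 ≤ x → x < N → occ η (x - 1) = true → occ η x = true := by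
    intro x h1 h2 h3
    by_contra h4
    exact hcon ⟨x, h1, h2, h3, by simpa using h4⟩
  apply hne
  have hup : ∀ x d, x + d < N → occ η x = true → occ η (x + d) = true := by
    intro x d
    induction d with
    | zero => intro _ h; simpa using h
    | succ d ih =>
      intro hy hx
      have h1 := ih (by omega) hx
      have e : x + (d + 1) - 1 = x + d := by omega
      exact hcon' (x + (d + 1)) (by omega) hy (by rw [e]; exact h1)
  have hfull : ∀ x, x < N → occ η x = true → ht η (x + 1) = N - (x + 1) := by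
    intro x hx hox
    have h1 : ht η (x + 1) = ∑ i ∈ Finset.Ico (x + 1) N, 1 := by
      unfold ht
      apply Finset.sum_congr rfl
      intro i hi
      rw [Finset.mem_Ico] at hi
      have h2 := hup x (i - x) (by omega) hox
      have e : x + (i - x) = i := by omega
      rw [e] at h2
      rw [if_pos h2]
    rw [h1]
    simp
  have hge : ∀ x, x ≤ N → min k (N - x) ≤ ht η x := by
    intro x
    induction x with
    | zero => intro _; rw [hη]; exact min_le_left _ _
    | succ x ih =>
      intro hx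
      have ih' := ih (by omega)
      by_cases ho : occ η x = true
      · rw [hfull x (by omega) ho]; exact min_le_right _ _
      · have ho' : occ η x = false := by simpa using ho
        have := (not_occ_iff_ht η (by omega : x < N)).1 ho'
        omega
  apply ext_ht
  intro x
  have h1 := hle_top hk hη x
  rw [ht_top hk] at h1 ⊢
  rcases le_or_gt x N with hx | hx
  · have := hge x hx
    omega
  · rw [ht_ge (by omega)]
    omega

theorem statex_pot_Rm {η : Cfg N} {x : ℕ} (h1 : 1 ≤ x) (h2 : x < N)
    (h3 : occ η (x - 1) = true) (h4 : occ η x = false) :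
    statex_pot η + 1 ≤ statex_pot (Rm x η) := by
  unfold statex_pot
  apply Nat.succ_le_of_lt
  apply Finset.sum_lt_sum (fun i _ => ht_Rm_ge η x i)
  refine ⟨x, Finset.mem_range.2 h2, ?_⟩
  have a1 := (occ_iff_ht η (by omega : x - 1 < N)).1 h3
  have e : x - 1 + 1 = x := by omega
  rw [e] at a1
  have a2 := (not_occ_iff_ht η h2).1 h4
  rw [ht_Rm η h1 h2]
  omega

/-! ### no-hit probabilities -/

theorem statex_nohit_mem {S : Finset ℕ} {T : Set (Cfg N)} {η : Cfg N} (h : η ∈ T) (m : ℕ) :
    nohit r l S T m η = 0 := by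
  cases m with
  | zero => simp [nohit, ind_of_mem h]
  | succ m => simp [nohit, ind_of_mem h]

theorem statex_nohit_not_mem {S : Finset ℕ} {T : Set (Cfg N)} {η : Cfg N} (h : η ∉ T) (m : ℕ) :
    nohit r l S T (m + 1) η = stp r l S (nohit r l S T m) η := by
  simp [nohit, ind_of_not_mem h]

theorem statex_nohit_bd (h : Adm N r l) (S : Finset ℕ) (T : Set (Cfg N)) (m : ℕ) :
    ∀ η : Cfg N, 0 ≤ nohit r l S T m η ∧ nohit r l S T m η ≤ 1 := by
  induction m with
  | zero =>
    intro η
    have a := ind_nonneg T η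
    have b := ind_le_one T η
    constructor
    · show 0 ≤ 1 - ind T η
      linarith
    · show 1 - ind T η ≤ 1
      linarith
  | succ m ih =>
    intro η
    by_cases hη : η ∈ T
    · rw [statex_nohit_mem hη]; norm_num
    · rw [statex_nohit_not_mem hη]
      constructor
      · exact stp_nonneg h (fun ξ => (ih ξ).1) η
      · have := stp_mono (S := S) h (f := nohit r l S T m) (g := fun _ => 1) (fun ξ => (ih ξ).2) η
        rwa [stp_const] at this

theorem statex_stp_lower (h : Adm N r l) {g : Cfg N → ℝ} (hg : ∀ η, 0 ≤ g η) {x : ℕ}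
    (h1 : 1 ≤ x) (h2 : x < N) (η : Cfg N) :
    r x / (2 * N) * g (Rm x η) ≤ stp r l (full N) g η := by
  have hx : x ∈ full N := by rw [full, Finset.mem_Ico]; exact ⟨h1, h2⟩
  have e : RmS (full N) x η = Rm x η := by unfold RmS; rw [if_pos hx]
  rw [stp_eq]
  have hterm : ∀ y ∈ full N, 0 ≤ r y / (2 * N) * g (RmS (full N) y η) +
      l y / (2 * N) * g (LmS (full N) y η) := by
    intro y hy
    rw [full, Finset.mem_Ico] at hy
    obtain ⟨a, b, c, d⟩ := h y hy.1 hy.2
    have g1 := hg (RmS (full N) y η)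
    have g2 := hg (LmS (full N) y η)
    positivity
  have h3 := Finset.single_le_sum (f := fun y => r y / (2 * N) * g (RmS (full N) y η) +
      l y / (2 * N) * g (LmS (full N) y η)) hterm hx
  have h4 : r x / (2 * N) * g (RmS (full N) x η) +
      l x / (2 * N) * g (LmS (full N) x η) ≤
      ∑ y ∈ full N, (r y / (2 * N) * g (RmS (full N) y η) +
      l y / (2 * N) * g (LmS (full N) y η)) := h3
  rw [e] at h4
  obtain ⟨a, b, c, d⟩ := h x h1 h2
  have h5 : 0 ≤ l x / (2 * N) * g (LmS (full N) x η) := by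
    have g2 := hg (LmS (full N) x η)
    positivity
  have h6 : 0 ≤ (1 - qtot N r l) * g η :=
    mul_nonneg (by linarith [qtot_le_one h]) (hg η)
  linarith

/-- hitting bound along right marks -/
theorem statex_hit (hk : k ≤ N) (h : Adm N r l) {p : ℝ} (hp0 : 0 ≤ p)
    (hp1 : p ≤ 1) (hp : ∀ x, 1 ≤ x → x < N → p ≤ r x / (2 * N)) (m : ℕ) :
    ∀ η : Cfg N, ht η 0 = k → statex_pot (top N k) ≤ statex_pot η + m →
      nohit r l (full N) {top N k} m η ≤ 1 - p ^ m := by
  induction m with
  | zero =>
    intro η hη hm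
    have := statex_eq_top hk hη (by omega)
    rw [statex_nohit_mem (by rw [this]; exact Set.mem_singleton _)]
    simp
  | succ m ih =>
    intro η hη hm
    by_cases hT : η = top N k
    · rw [statex_nohit_mem (by rw [hT]; exact Set.mem_singleton _)]
      have := pow_le_one₀ (n := m + 1) hp0 hp1
      linarith
    · have hT' : η ∉ ({top N k} : Set (Cfg N)) := fun hh => hT (Set.mem_singleton_iff.1 hh)
      obtain ⟨x, h1, h2, h3, h4⟩ := statex_move hk hη hT
      have hpot := statex_pot_Rm h1 h2 h3 h4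
      have ih' := ih (Rm x η) ((ht_Rm_zero η x).trans hη) (by omega)
      have bd := statex_nohit_bd h (full N) ({top N k} : Set (Cfg N)) m
      rw [statex_nohit_not_mem hT']
      have lo := statex_stp_lower h (g := fun ξ => 1 - nohit r l (full N) {top N k} m ξ)
        (fun ξ => by have := (bd ξ).2; linarith) h1 h2 η
      rw [stp_sub r l (full N) (fun _ => (1 : ℝ)) (nohit r l (full N) {top N k} m),
        stp_const] at lo
      have h5 : p * p ^ m ≤ r x / (2 * N) * (1 - nohit r l (full N) {top N k} m (Rm x η)) := by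
        apply mul_le_mul (hp x h1 h2) (by linarith) (pow_nonneg hp0 m)
        exact hp0.trans (hp x h1 h2)
      rw [pow_succ, mul_comm]
      linarith

theorem statex_p (hN : 1 ≤ N) (h : Adm N r l) :
    ∃ p : ℝ, 0 < p ∧ p ≤ 1 ∧ ∀ x, 1 ≤ x → x < N → p ≤ r x / (2 * N) := by
  rcases (full N).eq_empty_or_nonempty with he | hne
  · refine ⟨1, one_pos, le_rfl, fun x h1 h2 => ?_⟩
    have hx : x ∈ full N := by rw [full, Finset.mem_Ico]; exact ⟨h1, h2⟩
    rw [he] at hx
    exact absurd hx (Finset.notMem_empty x)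
  · obtain ⟨x0, hx0, hmin⟩ := Finset.exists_min_image (full N) (fun x => r x / (2 * (N : ℝ))) hne
    rw [full, Finset.mem_Ico] at hx0
    obtain ⟨a, b, c, d⟩ := h x0 hx0.1 hx0.2
    have hN' : (1 : ℝ) ≤ N := by exact_mod_cast hN
    refine ⟨r x0 / (2 * N), by positivity, ?_, fun x h1 h2 => ?_⟩
    · rw [div_le_one (by positivity)]
      linarith
    · exact hmin x (by rw [full, Finset.mem_Ico]; exact ⟨h1, h2⟩)

theorem statex_unif (hN : 1 ≤ N) (hk : k ≤ N) (h : Adm N r l) :
    ∃ M : ℕ, ∃ a : ℝ, 0 ≤ a ∧ a < 1 ∧ ∀ η : Cfg N, ht η 0 = k →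
      nohit r l (full N) {top N k} M η ≤ a := by
  obtain ⟨p, hp0, hp1, hp⟩ := statex_p hN h
  refine ⟨statex_pot (top N k), 1 - p ^ statex_pot (top N k), ?_, ?_, ?_⟩
  · have := pow_le_one₀ (n := statex_pot (top N k)) hp0.le hp1
    linarith
  · have := pow_pos hp0 (statex_pot (top N k))
    linarith
  · intro η hη
    exact statex_hit hk h hp0.le hp1 hp _ η hη (by omega)

theorem statex_nohit_add (h : Adm N r l) {a : ℝ} {n : ℕ}
    (ha : ∀ η : Cfg N, ht η 0 = k → nohit r l (full N) {top N k} n η ≤ a) (m : ℕ) :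
    ∀ η : Cfg N, ht η 0 = k → nohit r l (full N) {top N k} (m + n) η ≤
      a * nohit r l (full N) {top N k} m η := by
  induction m with
  | zero =>
    intro η hη
    rw [zero_add]
    by_cases hT : η ∈ ({top N k} : Set (Cfg N))
    · rw [statex_nohit_mem hT, statex_nohit_mem hT, mul_zero]
    · have e : nohit r l (full N) {top N k} 0 η = 1 := by
        show 1 - ind ({top N k} : Set (Cfg N)) η = 1
        rw [ind_of_not_mem hT, sub_zero]
      rw [e, mul_one]
      exact ha η hη
  | succ m ih =>
    intro η hη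
    have e : m + 1 + n = (m + n) + 1 := by ring
    rw [e]
    by_cases hT : η ∈ ({top N k} : Set (Cfg N))
    · rw [statex_nohit_mem hT, statex_nohit_mem hT, mul_zero]
    · rw [statex_nohit_not_mem hT, statex_nohit_not_mem hT, ← stp_smul]
      apply stp_couple h (ih η hη)
      · intro x _ _
        exact ih _ ((ht_RmS_zero _ η x).trans hη)
      · intro x _ _
        exact ih _ ((ht_LmS_zero _ η x).trans hη)

theorem statex_nohit_geo (h : Adm N r l) {a : ℝ} {M : ℕ} (ha0 : 0 ≤ a)
    (ha : ∀ η : Cfg N, ht η 0 = k → nohit r l (full N) {top N k} M η ≤ a) (J : ℕ) :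
    ∀ η : Cfg N, ht η 0 = k → nohit r l (full N) {top N k} (J * M) η ≤ a ^ J := by
  induction J with
  | zero =>
    intro η _
    rw [pow_zero]
    exact (statex_nohit_bd h _ _ _ η).2
  | succ J ih =>
    intro η hη
    have e : (J + 1) * M = J * M + M := by ring
    rw [e, pow_succ, mul_comm (a ^ J) a]
    exact (statex_nohit_add h ha (J * M) η hη).trans
      (mul_le_mul_of_nonneg_left (ih η hη) ha0)

theorem statex_nohit_tendsto (hN : 1 ≤ N) (hk : k ≤ N) (h : Adm N r l) :
    Tendsto (fun m => nohit r l (full N) {top N k} m (bot N k)) atTop (𝓝 0) := by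
  obtain ⟨M, a, ha0, ha1, ha⟩ := statex_unif (k := k) hN hk h
  rw [Metric.tendsto_atTop]
  intro ε hε
  obtain ⟨J, hJ⟩ := exists_pow_lt_of_lt_one hε ha1
  refine ⟨J * M, fun m hm => ?_⟩
  have hb : ht (bot N k) 0 = k := ht_bot_zero hk
  have h1 := statex_nohit_geo h ha0 ha J (bot N k) hb
  have h2 := statex_nohit_add (k := k) h (a := 1) (n := m - J * M)
    (fun η _ => (statex_nohit_bd h _ _ _ η).2) (J * M) (bot N k) hb
  have e : J * M + (m - J * M) = m := by omega
  rw [e, one_mul] at h2
  have h3 := (statex_nohit_bd h (full N) ({top N k} : Set (Cfg N)) m (bot N k)).1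
  rw [Real.dist_eq, sub_zero, abs_of_nonneg h3]
  linarith

/-! ### linearity at the lowest state -/

theorem statex_decomp (m : ℕ) (f : Cfg N → ℝ) (ξ : Cfg N) :
    ev r l (fun _ => full N) m f ξ =
      ∑ η : Cfg N, ev r l (fun _ => full N) m (ind ({η} : Set (Cfg N))) ξ * f η := by
  have e : f = fun ζ => ∑ η : Cfg N, f η * ind ({η} : Set (Cfg N)) ζ := by
    funext ζ
    rw [Finset.sum_eq_single ζ]
    · rw [ind_of_mem (Set.mem_singleton ζ), mul_one]
    · intro η _ hne
      rw [ind_of_not_mem (fun hh => hne (Set.mem_singleton_iff.1 hh).symm), mul_zero]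
    · intro hh
      exact absurd (Finset.mem_univ ζ) hh
  conv_lhs => rw [e]
  rw [ev_sum (fun _ => full N) m Finset.univ
    (fun (η : Cfg N) (ζ : Cfg N) => f η * ind ({η} : Set (Cfg N)) ζ)]
  apply Finset.sum_congr rfl
  intro η _
  rw [ev_smul (fun _ => full N) m (f η) (ind ({η} : Set (Cfg N)))]
  ring

theorem statex_osc (hC : ST_COAL) (hk : k ≤ N) (h : Adm N r l) {f : Cfg N → ℝ}
    (h0 : ∀ χ, 0 ≤ f χ) (h1 : ∀ χ, f χ ≤ 1) (m : ℕ) (ξ : Cfg N) (hξ : ht ξ 0 = k) :
    |ev r l (fun _ => full N) m f ξ - ev r l (fun _ => full N) m f (bot N k)| ≤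
      nohit r l (full N) {top N k} m (bot N k) := by
  have hb : ht (bot N k) 0 = k := ht_bot_zero hk
  have a := hC N k r l m f ξ (bot N k) (bot N k) hk h hξ hb hb (hle_bot hk hξ)
    (hle_refl _) h0 h1
  have b := hC N k r l m f (bot N k) ξ (bot N k) hk h hb hξ hb (hle_refl _)
    (hle_bot hk hξ) h0 h1
  rw [abs_le]
  constructor <;> linarith

theorem statex_cauchy (hC : ST_COAL) (hk : k ≤ N) (h : Adm N r l) {f : Cfg N → ℝ}
    (h0 : ∀ χ, 0 ≤ f χ) (h1 : ∀ χ, f χ ≤ 1) (n m : ℕ) (hnm : n ≤ m) :
    dist (ev r l (fun _ => full N) n f (bot N k)) (ev r l (fun _ => full N) m f (bot N k)) ≤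
      nohit r l (full N) {top N k} n (bot N k) := by
  have hb : ht (bot N k) 0 = k := ht_bot_zero hk
  obtain ⟨d, rfl⟩ : ∃ d, m = d + n := ⟨m - n, by omega⟩
  have e := ev_add (r := r) (l := l) (fun _ => full N) d n f
  have e' : ev r l (fun _ => full N) (d + n) f =
      ev r l (fun _ => full N) d (ev r l (fun _ => full N) n f) := e
  rw [e']
  have hi : ev r l (fun _ => full N) d (ev r l (fun _ => full N) n f) (bot N k) ≤
      ev r l (fun _ => full N) n f (bot N k) + nohit r l (full N) {top N k} n (bot N k) := by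
    have := ev_mono_sector h (k := k) (f := ev r l (fun _ => full N) n f)
      (g := fun _ => ev r l (fun _ => full N) n f (bot N k) +
        nohit r l (full N) {top N k} n (bot N k))
      (fun ξ hξ => by
        have := (abs_le.1 (statex_osc hC hk h h0 h1 n ξ hξ)).2
        linarith) (fun _ => full N) d hb
    rwa [ev_const] at this
  have lo : ev r l (fun _ => full N) n f (bot N k) -
      nohit r l (full N) {top N k} n (bot N k) ≤
      ev r l (fun _ => full N) d (ev r l (fun _ => full N) n f) (bot N k) := by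
    have := ev_mono_sector h (k := k) (g := ev r l (fun _ => full N) n f)
      (f := fun _ => ev r l (fun _ => full N) n f (bot N k) -
        nohit r l (full N) {top N k} n (bot N k))
      (fun ξ hξ => by
        have := (abs_le.1 (statex_osc hC hk h h0 h1 n ξ hξ)).1
        linarith) (fun _ => full N) d hb
    rwa [ev_const] at this
  rw [Real.dist_eq, abs_le]
  constructor <;> linarith

theorem statex_lim (hC : ST_COAL) (hN : 1 ≤ N) (hk : k ≤ N) (h : Adm N r l) :
    ∃ π : Cfg N → ℝ, ∀ f : Cfg N → ℝ,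
      Tendsto (fun m => ev r l (fun _ => full N) m f (bot N k)) atTop
        (𝓝 (∑ η, π η * f η)) := by
  have hT := statex_nohit_tendsto hN hk h
  have hex : ∀ η : Cfg N, ∃ L : ℝ,
      Tendsto (fun m => ev r l (fun _ => full N) m (ind ({η} : Set (Cfg N))) (bot N k)) atTop
        (𝓝 L) := by
    intro η
    apply cauchySeq_tendsto_of_complete
    exact cauchySeq_of_le_tendsto_0' _
      (fun n m hnm => statex_cauchy hC hk h (ind_nonneg _) (ind_le_one _) n m hnm) hT
  choose π hπ using hex
  refine ⟨π, fun f => ?_⟩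
  have e : (fun m => ev r l (fun _ => full N) m f (bot N k)) = fun m =>
      ∑ η : Cfg N, ev r l (fun _ => full N) m (ind ({η} : Set (Cfg N))) (bot N k) * f η := by
    funext m
    exact statex_decomp m f (bot N k)
  rw [e]
  apply tendsto_finsetSum
  intro η _
  exact (hπ η).mul_const (f η)

theorem statex_pi_ind (π : Cfg N → ℝ) (ζ : Cfg N) :
    ∑ η, π η * ind ({ζ} : Set (Cfg N)) η = π ζ := by
  rw [Finset.sum_eq_single ζ]
  · rw [ind_of_mem (Set.mem_singleton ζ), mul_one]
  · intro η _ hne
    rw [ind_of_not_mem (fun hh => hne (Set.mem_singleton_iff.1 hh)), mul_zero]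
  · intro hh
    exact absurd (Finset.mem_univ ζ) hh

/-- a stationary law integrates `ev m f` like `f` -/
theorem statex_stat_ev {π : Cfg N → ℝ} (hπ : IsStat N k r l π) (f : Cfg N → ℝ) (m : ℕ) :
    ∑ η, π η * ev r l (fun _ => full N) m f η = ∑ η, π η * f η := by
  induction m with
  | zero => rfl
  | succ m ih =>
    have e : ev r l (fun _ => full N) (m + 1) f =
        stp r l (full N) (ev r l (fun _ => full N) m f) := rfl
    rw [e, hπ.stat, ih]

theorem statex_close (hC : ST_COAL) (hk : k ≤ N) (h : Adm N r l) {π : Cfg N → ℝ}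
    (hπ : IsStat N k r l π) {f : Cfg N → ℝ} (h0 : ∀ χ, 0 ≤ f χ) (h1 : ∀ χ, f χ ≤ 1) (m : ℕ) :
    |∑ η, π η * f η - ev r l (fun _ => full N) m f (bot N k)| ≤
      nohit r l (full N) {top N k} m (bot N k) := by
  have e1 : ∑ η, π η * f η - ev r l (fun _ => full N) m f (bot N k) =
      ∑ η, π η * (ev r l (fun _ => full N) m f η - ev r l (fun _ => full N) m f (bot N k)) := by
    simp_rw [mul_sub]
    rw [Finset.sum_sub_distrib, statex_stat_ev hπ f m, ← Finset.sum_mul, hπ.total, one_mul]
  rw [e1]
  refine (Finset.abs_sum_le_sum_abs _ _).trans ?_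
  have h2 : ∀ η ∈ (Finset.univ : Finset (Cfg N)),
      |π η * (ev r l (fun _ => full N) m f η - ev r l (fun _ => full N) m f (bot N k))| ≤
      π η * nohit r l (full N) {top N k} m (bot N k) := by
    intro η _
    by_cases hη : ht η 0 = k
    · rw [abs_mul, abs_of_nonneg (hπ.nonneg η)]
      exact mul_le_mul_of_nonneg_left (statex_osc hC hk h h0 h1 m η hη) (hπ.nonneg η)
    · rw [hπ.supp η hη]
      simp
  refine (Finset.sum_le_sum h2).trans ?_
  rw [← Finset.sum_mul, hπ.total, one_mul]

end statex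

/-- existence and uniqueness of the stationary law -/
theorem st_STATEX (hC : ST_COAL) : ST_STATEX := by
  intro N k r l hN hk h
  have hb : ht (bot N k) 0 = k := ht_bot_zero hk
  obtain ⟨π, hπ⟩ := statex_lim hC hN hk h
  have hπi : ∀ ζ : Cfg N,
      Tendsto (fun m => ev r l (fun _ => full N) m (ind ({ζ} : Set (Cfg N))) (bot N k)) atTop
        (𝓝 (π ζ)) := by
    intro ζ
    have := hπ (ind ({ζ} : Set (Cfg N)))
    rwa [statex_pi_ind] at this
  refine ⟨π, ⟨?_, ?_, ?_, ?_⟩, ?_⟩
  · intro η
    exact ge_of_tendsto' (hπi η) (fun m => ev_nonneg h (ind_nonneg _) _ m _)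
  · intro η hη
    have hz : (fun m => ev r l (fun _ => full N) m (ind ({η} : Set (Cfg N))) (bot N k)) =
        fun _ => (0 : ℝ) := by
      funext m
      have h1 := ev_congr_sector (r := r) (l := l) (k := k) (f := ind ({η} : Set (Cfg N)))
        (g := fun _ => 0)
        (fun ξ hξ => ind_of_not_mem (fun hh => hη (by
          rw [← Set.mem_singleton_iff.1 hh]; exact hξ))) (fun _ => full N) m hb
      rw [h1, ev_const]
    have h2 := hπi η
    rw [hz] at h2
    exact tendsto_nhds_unique h2 tendsto_const_nhds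
  · have h1 := hπ (fun _ => 1)
    have hz : (fun m => ev r l (fun _ => full N) m (fun _ : Cfg N => (1 : ℝ)) (bot N k)) =
        fun _ => (1 : ℝ) := by
      funext m
      rw [ev_const]
    rw [hz] at h1
    have h2 := tendsto_nhds_unique h1 tendsto_const_nhds
    simpa using h2
  · intro f
    have h1 := hπ (stp r l (full N) f)
    have h2 := (hπ f).comp (tendsto_add_atTop_nat 1)
    have hz : ((fun m => ev r l (fun _ => full N) m f (bot N k)) ∘ fun m => m + 1) =
        fun m => ev r l (fun _ => full N) m (stp r l (full N) f) (bot N k) := by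
      funext m
      show ev r l (fun _ => full N) (m + 1) f (bot N k) = _
      rw [ev_succ_last]
    rw [hz] at h2
    exact tendsto_nhds_unique h1 h2
  · intro π' hπ'
    funext ζ
    have hT := statex_nohit_tendsto hN hk h
    have h1 := statex_close hC hk h hπ' (f := ind ({ζ} : Set (Cfg N))) (ind_nonneg _)
      (ind_le_one _)
    rw [statex_pi_ind] at h1
    have h2 : Tendsto
        (fun m => ev r l (fun _ => full N) m (ind ({ζ} : Set (Cfg N))) (bot N k)) atTop
        (𝓝 (π' ζ)) := by
      rw [tendsto_iff_dist_tendsto_zero]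
      apply squeeze_zero (fun _ => dist_nonneg) _ hT
      intro m
      rw [dist_comm, Real.dist_eq]
      exact h1 m
    exact tendsto_nhds_unique h2 (hπi ζ)

end Pool.Agent.Helper98.EX
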