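import Pool.Agent.Helper98.EX.Stmts

/-!
# Module TIME: monotonicity in time from the lowest state
-/

namespace Pool.Agent.Helper98.EX

/-- monotonicity in time from the lowest state -/
theorem st_TIME : ST_TIME := by
  intro N k r l m n f hk h hf hmn
  have hb : ht (bot N k) 0 = k := ht_bot_zero hk
  obtain ⟨d, rfl⟩ : ∃ d, n = d + m := ⟨n - m, by omega⟩
  have e : ev r l (fun _ => full N) (d + m) f =
      ev r l (fun _ => full N) d (ev r l (fun _ => full N) m f) :=
    ev_add (r := r) (l := l) (fun _ => full N) d m f
  rw [e]
  have hinc : Inc k (ev r l (fun _ => full N) m f) := ev_inc h hf _ m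
  have := ev_mono_sector h (k := k) (f := fun _ => ev r l (fun _ => full N) m f (bot N k))
    (g := ev r l (fun _ => full N) m f)
    (fun ξ hξ => hinc (bot N k) ξ hb hξ (hle_bot hk hξ)) (fun _ => full N) d hb
  rwa [ev_const] at this

end Pool.Agent.Helper98.EX
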